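import Mathlib
import Pool.Agent.Helper133.Brouwer

/-! The dual action of integer matrices on the affine hyperplane of covectors taking the value one on
an integer vector, crystallographic groups, and a surjectivity criterion from Brouwer's theorem. -/

open scoped Topology Matrix
open Set

noncomputable section

namespace Pool.Agent.W401P

variable {m : ℕ}

/-- The affine hyperplane of the covectors `b` with `b k = 1`. -/
def hyperplane (k : Fin m → ℤ) : Set (Fin m → ℝ) := {b | ∑ j, b j * (k j : ℝ) = 1}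

/-- The covector `b ∘ G⁻¹`: the dual action of `GL(m, ℤ)` on the covectors `b`. -/
def coact (G : GL (Fin m) ℤ) (b : Fin m → ℝ) : Fin m → ℝ :=
  fun j => ∑ i, b i * (((G⁻¹ : GL (Fin m) ℤ) : Matrix (Fin m) (Fin m) ℤ) i j : ℝ)

/-- The group `Δ` of integer matrices fixes the vector `k`, and its dual action on the affine
hyperplane of the covectors `b` with `b k = 1` is crystallographic, that is, cocompact and properly
discontinuous. -/
structure Crystallographic (Δ : Subgroup (GL (Fin m) ℤ)) (k : Fin m → ℤ) : Prop where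
  fix : ∀ G ∈ Δ, (G : Matrix (Fin m) (Fin m) ℤ) *ᵥ k = k
  cocompact : ∃ Q : Set (Fin m → ℝ), IsCompact Q ∧ Q ⊆ hyperplane k ∧
    ∀ b ∈ hyperplane k, ∃ G ∈ Δ, coact G b ∈ Q
  proper : ∀ Q : Set (Fin m → ℝ), IsCompact Q → Q ⊆ hyperplane k →
    {G : GL (Fin m) ℤ | G ∈ Δ ∧ ∃ b ∈ Q, coact G b ∈ Q}.Finite

/-- the real matrix of an integral one -/
def toR (G : GL (Fin m) ℤ) : Matrix (Fin m) (Fin m) ℝ :=
  (G : Matrix (Fin m) (Fin m) ℤ).map (Int.cast : ℤ → ℝ)

lemma coact_eq (G : GL (Fin m) ℤ) (b : Fin m → ℝ) : coact G b = b ᵥ* toR G⁻¹ := rfl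

lemma toR_mul (G G' : GL (Fin m) ℤ) : toR (G * G') = toR G * toR G' := by
  unfold toR
  rw [Units.val_mul]
  exact Matrix.map_mul (f := Int.castRingHom ℝ)

lemma toR_one : toR (1 : GL (Fin m) ℤ) = 1 := by
  unfold toR
  rw [Units.val_one]
  exact Matrix.map_one _ Int.cast_zero Int.cast_one

lemma coact_mul (G G' : GL (Fin m) ℤ) (b : Fin m → ℝ) :
    coact (G * G') b = coact G (coact G' b) := by
  simp only [coact_eq]
  rw [mul_inv_rev, toR_mul, Matrix.vecMul_vecMul]

lemma coact_one (b : Fin m → ℝ) : coact (1 : GL (Fin m) ℤ) b = b := by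
  rw [coact_eq, inv_one, toR_one, Matrix.vecMul_one]

lemma coact_inv_coact (G : GL (Fin m) ℤ) (b : Fin m → ℝ) : coact G⁻¹ (coact G b) = b := by
  rw [← coact_mul, inv_mul_cancel, coact_one]

lemma coact_add (G : GL (Fin m) ℤ) (b c : Fin m → ℝ) :
    coact G (b + c) = coact G b + coact G c := by
  simp only [coact_eq]
  exact Matrix.add_vecMul _ _ _

lemma coact_smul (G : GL (Fin m) ℤ) (t : ℝ) (b : Fin m → ℝ) :
    coact G (t • b) = t • coact G b := by
  simp only [coact_eq]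
  exact Matrix.smul_vecMul _ _ _

lemma continuous_coact (G : GL (Fin m) ℤ) : Continuous (coact G) := by
  unfold coact
  fun_prop

/-- value on `k` -/
lemma mem_hyperplane {k : Fin m → ℤ} {b : Fin m → ℝ} :
    b ∈ hyperplane k ↔ b ⬝ᵥ (fun j => (k j : ℝ)) = 1 := Iff.rfl

lemma isClosed_hyperplane {k : Fin m → ℤ} : IsClosed (hyperplane k) := by
  have h : Continuous fun b : Fin m → ℝ => ∑ j, b j * (k j : ℝ) := by fun_prop
  exact isClosed_eq h continuous_const

lemma fix_inv {k : Fin m → ℤ} {G : GL (Fin m) ℤ}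
    (h : (G : Matrix (Fin m) (Fin m) ℤ) *ᵥ k = k) :
    ((G⁻¹ : GL (Fin m) ℤ) : Matrix (Fin m) (Fin m) ℤ) *ᵥ k = k := by
  conv_lhs => rw [← h]
  rw [Matrix.mulVec_mulVec, ← Units.val_mul, inv_mul_cancel, Units.val_one, Matrix.one_mulVec]

lemma toR_mulVec (G : GL (Fin m) ℤ) (k : Fin m → ℤ) :
    toR G *ᵥ (fun j => (k j : ℝ)) =
      fun i => ((((G : Matrix (Fin m) (Fin m) ℤ) *ᵥ k) i : ℤ) : ℝ) := by
  ext i
  simp [toR, Matrix.mulVec, dotProduct]

lemma coact_mem {k : Fin m → ℤ} {G : GL (Fin m) ℤ}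
    (h : (G : Matrix (Fin m) (Fin m) ℤ) *ᵥ k = k) {b : Fin m → ℝ} (hb : b ∈ hyperplane k) :
    coact G b ∈ hyperplane k := by
  rw [mem_hyperplane] at hb ⊢
  rw [coact_eq, ← Matrix.dotProduct_mulVec, toR_mulVec, fix_inv h]
  exact hb

/-- A criterion for a point to be a value of a map of the hyperplane to itself: the points which the
straight homotopy to the identity moves to the point form a bounded set. -/
theorem exists_value {k : Fin m → ℤ} (hk : k ≠ 0) (φ : hyperplane k → (Fin m → ℝ))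
    (hφ : Continuous φ) (hV : ∀ b, φ b ∈ hyperplane k) {p : Fin m → ℝ} (hp : p ∈ hyperplane k)
    (R₀ : ℝ) (hR : ∀ (b : hyperplane k) (t : ℝ), 0 ≤ t → t ≤ 1 →
      (1 - t) • (b : Fin m → ℝ) + t • φ b = p → ‖(b : Fin m → ℝ) - p‖ ≤ R₀) :
    ∃ b, φ b = p := by
  by_contra hno
  push Not at hno
  set κ : Fin m → ℝ := fun j => (k j : ℝ) with hκ
  have hh : 0 < κ ⬝ᵥ κ := by
    have h0 : κ ≠ 0 := by
      intro h0
      apply hk
      ext i
      have := congrFun h0 i
      simpa [hκ] using this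
    have h1 : 0 ≤ κ ⬝ᵥ κ := Finset.sum_nonneg fun i _ => mul_self_nonneg _
    rcases h1.lt_or_eq with h | h
    · exact h
    · exact absurd (dotProduct_self_eq_zero.1 h.symm) h0
  -- the projection to the hyperplane
  have hπ : ∀ b : Fin m → ℝ, b - ((b ⬝ᵥ κ - 1) / (κ ⬝ᵥ κ)) • κ ∈ hyperplane k := by
    intro b
    rw [mem_hyperplane, sub_dotProduct, smul_dotProduct, smul_eq_mul]
    show b ⬝ᵥ κ - (b ⬝ᵥ κ - 1) / (κ ⬝ᵥ κ) * (κ ⬝ᵥ κ) = 1
    rw [div_mul_cancel₀ _ hh.ne']
    ring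
  let π : (Fin m → ℝ) → hyperplane k := fun b => ⟨b - ((b ⬝ᵥ κ - 1) / (κ ⬝ᵥ κ)) • κ, hπ b⟩
  have hπc : Continuous π := by
    refine Continuous.subtype_mk ?_ _
    have h1 : Continuous fun b : Fin m → ℝ => b ⬝ᵥ κ := by
      unfold dotProduct
      fun_prop
    exact continuous_id.sub (((h1.sub continuous_const).div_const _).smul continuous_const)
  have hπid : ∀ b : hyperplane k, π b = b := by
    intro b
    apply Subtype.ext
    have h1 : (b : Fin m → ℝ) ⬝ᵥ κ = 1 := mem_hyperplane.1 b.2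
    show (b : Fin m → ℝ) - (((b : Fin m → ℝ) ⬝ᵥ κ - 1) / (κ ⬝ᵥ κ)) • κ = b
    rw [h1, sub_self, zero_div, zero_smul, sub_zero]
  have hne : ∀ b, 0 < ‖φ b - p‖ := fun b => norm_pos_iff.2 (sub_ne_zero.2 (hno b))
  set R : ℝ := |R₀| + 1 with hRdef
  have hR0 : 0 < R := by positivity
  obtain ⟨b, hb⟩ := Pool.Agent.Helper133.Brouwer.brouwer
    (fun b => p - (R / ‖φ (π b) - p‖) • (φ (π b) - p))
    (by
      have h1 : Continuous fun b => φ (π b) - p := (hφ.comp hπc).sub continuous_const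
      exact continuous_const.sub
        ((continuous_const.div h1.norm fun b => (hne (π b)).ne').smul h1))
    (‖p‖ + R) (by
      intro b
      refine (norm_sub_le _ _).trans (add_le_add_right ?_ _)
      rw [norm_smul, Real.norm_eq_abs, abs_of_pos (div_pos hR0 (hne _)),
        div_mul_cancel₀ _ (hne _).ne'])
  have hbV : b ∈ hyperplane k := by
    rw [mem_hyperplane, ← hb, sub_dotProduct, smul_dotProduct, sub_dotProduct]
    have h1 := mem_hyperplane.1 (hV (π b))
    have h2 := mem_hyperplane.1 hp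
    rw [h1, h2]
    simp
  have hπb : π b = ⟨b, hbV⟩ := hπid ⟨b, hbV⟩
  simp only [hπb] at hb
  set v := φ ⟨b, hbV⟩ - p with hv
  have hvpos : 0 < ‖v‖ := hne ⟨b, hbV⟩
  have hbp : b - p = -((R / ‖v‖) • v) := by
    conv_lhs => rw [← hb]
    abel
  have hnorm : ‖b - p‖ = R := by
    rw [hbp, norm_neg, norm_smul, Real.norm_eq_abs, abs_of_pos (div_pos hR0 hvpos),
      div_mul_cancel₀ _ hvpos.ne']
  have ht : (0:ℝ) < R + ‖v‖ := by positivity
  have h3 := hR ⟨b, hbV⟩ (R / (R + ‖v‖)) (by positivity)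
    (by rw [div_le_one ht]; linarith) (by
      have h4 : (1 - R / (R + ‖v‖)) • b + (R / (R + ‖v‖)) • φ ⟨b, hbV⟩ =
          p + ((1 - R / (R + ‖v‖)) • (b - p) + (R / (R + ‖v‖)) • v) := by
        rw [hv]
        module
      rw [h4, hbp, smul_neg, smul_smul, neg_add_eq_sub, ← sub_smul]
      have h5 : R / (R + ‖v‖) - (1 - R / (R + ‖v‖)) * (R / ‖v‖) = 0 := by
        field_simp
        ring
      rw [h5, zero_smul, add_zero])
  rw [show ‖((⟨b, hbV⟩ : hyperplane k) : Fin m → ℝ) - p‖ = R from hnorm] at h3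
  have := le_abs_self R₀
  linarith

end Pool.Agent.W401P
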