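import Mathlib
import Pool.Agent.H826R2.Wein.NearPush
import Pool.Agent.H826R2.Wein.RelTop
import Pool.Agent.H826R2.Wein.Bridge

/-! Functions which are pushed strictly upwards by a flow: product decompositions. Application to
momentum functions of local torus symmetries of contact forms without closed Reeb orbits. -/

open scoped Topology ContDiff Manifold
open Set Metric Bundle Pool.Agent.Helper186 Pool.Agent.H826R2.Wein

noncomputable section

namespace Pool.Agent.W401P

set_option linter.unusedSectionVars false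

/-- A continuous flow pushing the function `f` up, uniformly on slabs and strictly. -/
structure SPush {P : Type*} [TopologicalSpace P] (f : P → ℝ) extends Fpush f where
  smono : ∀ x, StrictMono (fun t => f (Fl x t))

namespace SPush

variable {P : Type*} [TopologicalSpace P] {f : P → ℝ} (F : SPush f)

lemma exists_time (hf : Continuous f) (x : P) : ∃ t : ℝ, f (F.Fl x (-t)) = 0 := by
  have hc : Continuous (fun t : ℝ => f (F.Fl x (-t))) :=
    hf.comp ((F.toFpush.cont_right x).comp continuous_neg)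
  obtain ⟨T, hT0, hT⟩ := F.push |f x|
  obtain ⟨T', hT0', hT'⟩ := F.toFpush.neg.push |f x|
  have h1 : |f x| < f (F.Fl x T) := hT x (neg_abs_le _)
  have h2 : |f x| < - f (F.Fl x (-T')) := hT' x (neg_le_neg (le_abs_self _))
  have h0 := abs_nonneg (f x)
  obtain ⟨t, ht⟩ := mem_range_of_exists_le_of_exists_ge (c := 0) hc
    ⟨T', by linarith⟩ ⟨-T, by rw [neg_neg]; linarith⟩
  exact ⟨t, ht⟩

/-- the time coordinate -/
def tau (hf : Continuous f) (x : P) : ℝ := Classical.choose (F.exists_time hf x)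

variable (hf : Continuous f)

lemma tau_spec (x : P) : f (F.Fl x (-F.tau hf x)) = 0 := Classical.choose_spec (F.exists_time hf x)

lemma tau_unique {x : P} {t : ℝ} (h : f (F.Fl x (-t)) = 0) : F.tau hf x = t := by
  have h1 : -F.tau hf x = -t := (F.smono x).injective (by
    show f (F.Fl x (-F.tau hf x)) = f (F.Fl x (-t))
    rw [F.tau_spec hf, h])
  linarith

lemma tau_lt {x : P} {a : ℝ} : F.tau hf x < a ↔ f (F.Fl x (-a)) < 0 := by
  have h1 : f (F.Fl x (-a)) < f (F.Fl x (-F.tau hf x)) ↔ -a < -F.tau hf x :=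
    (F.smono x).lt_iff_lt
  rw [F.tau_spec hf] at h1
  rw [h1]
  constructor <;> intro h <;> linarith

lemma lt_tau {x : P} {a : ℝ} : a < F.tau hf x ↔ 0 < f (F.Fl x (-a)) := by
  have h1 : f (F.Fl x (-F.tau hf x)) < f (F.Fl x (-a)) ↔ -F.tau hf x < -a :=
    (F.smono x).lt_iff_lt
  rw [F.tau_spec hf] at h1
  rw [h1]
  constructor <;> intro h <;> linarith

lemma continuous_tau : Continuous (F.tau hf) := by
  rw [continuous_iff_lower_upperSemicontinuous]
  constructor
  · rw [lowerSemicontinuous_iff_isOpen_preimage]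
    intro a
    have : F.tau hf ⁻¹' Ioi a = {x | 0 < f (F.Fl x (-a))} := by
      ext x; exact F.lt_tau hf
    rw [this]
    exact isOpen_lt continuous_const (hf.comp (F.toFpush.cont_left (-a)))
  · rw [upperSemicontinuous_iff_isOpen_preimage]
    intro a
    have : F.tau hf ⁻¹' Iio a = {x | f (F.Fl x (-a)) < 0} := by
      ext x; exact F.tau_lt hf
    rw [this]
    exact isOpen_lt (hf.comp (F.toFpush.cont_left (-a))) continuous_const

/-- the product decomposition -/
def homeo : P ≃ₜ {x : P | f x = 0} × ℝ where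
  toFun x := (⟨F.Fl x (-F.tau hf x), F.tau_spec hf x⟩, F.tau hf x)
  invFun p := F.Fl p.1 p.2
  left_inv x := by
    show F.Fl (F.Fl x (-F.tau hf x)) (F.tau hf x) = x
    rw [← F.add, neg_add_cancel, F.zero]
  right_inv p := by
    obtain ⟨⟨y, hy⟩, t⟩ := p
    have ht : F.tau hf (F.Fl y t) = t := by
      apply F.tau_unique hf
      rw [← F.add, add_neg_cancel, F.zero]
      exact hy
    refine Prod.ext (Subtype.ext ?_) ht
    show F.Fl (F.Fl y t) (-F.tau hf (F.Fl y t)) = y
    rw [ht, ← F.add, add_neg_cancel, F.zero]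
  continuous_toFun := by
    have h1 : Continuous fun x => F.Fl x (-F.tau hf x) :=
      F.cont.comp (continuous_id.prodMk (F.continuous_tau hf).neg)
    exact (h1.subtype_mk _).prodMk (F.continuous_tau hf)
  continuous_invFun := by
    have h1 : Continuous fun p : {x : P | f x = 0} × ℝ => ((p.1 : P), p.2) := by fun_prop
    exact F.cont.comp h1

lemma homeo_zero (y : {x : P | f x = 0}) : F.homeo hf (y : P) = (y, 0) := by
  have ht : F.tau hf (y : P) = 0 := by
    apply F.tau_unique hf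
    rw [neg_zero, F.zero]
    exact y.2
  refine Prod.ext (Subtype.ext ?_) ht
  show F.Fl (y : P) (-F.tau hf (y : P)) = y
  rw [ht, neg_zero, F.zero]

lemma homeo_sign (x : P) : SignType.sign (f x) = SignType.sign (F.homeo hf x).2 := by
  show SignType.sign (f x) = SignType.sign (F.tau hf x)
  have h1 := F.tau_lt hf (x := x) (a := 0)
  have h2 := F.lt_tau hf (x := x) (a := 0)
  rw [neg_zero, F.zero] at h1 h2
  rcases lt_trichotomy (F.tau hf x) 0 with h | h | h
  · rw [sign_neg h, sign_neg (h1.1 h)]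
  · have h3 : f x = 0 := by
      apply le_antisymm
      · by_contra h4
        push Not at h4
        have := h2.2 h4
        linarith
      · by_contra h4
        push Not at h4
        have := h1.2 h4
        linarith
    rw [h, h3]
  · rw [sign_pos h, sign_pos (h2.1 h)]

include F in
lemma unbounded_above [Nonempty P] (c : ℝ) : ∃ x, c < f x := by
  obtain ⟨x⟩ : Nonempty P := inferInstance
  obtain ⟨T, -, hT⟩ := F.push (max |f x| c)
  have h1 := hT x (by have := neg_abs_le (f x); have := le_max_left |f x| c; linarith)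
  exact ⟨_, (le_max_right _ _).trans_lt h1⟩

include F in
lemma unbounded_below [Nonempty P] (c : ℝ) : ∃ x, f x < c := by
  obtain ⟨x⟩ : Nonempty P := inferInstance
  obtain ⟨T, -, hT⟩ := F.toFpush.neg.push (max |f x| (-c))
  have h1 := hT x (by
    have := le_abs_self (f x); have := le_max_left |f x| (-c)
    show -(max |f x| (-c)) ≤ - f x
    linarith)
  refine ⟨F.Fl x (-T), ?_⟩
  have h2 : max |f x| (-c) < - f (F.Fl x (-T)) := h1
  have := le_max_right |f x| (-c)
  linarith

end SPush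

section wein

universe u

variable {E : Type u} [NormedAddCommGroup E] [NormedSpace ℝ E] [FiniteDimensional ℝ E]
  {P : Type*} [TopologicalSpace P] [ChartedSpace E P] [IsManifold 𝓘(ℝ, E) ∞ P]

/-- A strictly pushing flow which commutes with the elements of the group preserving `f`. -/
structure EPush (Γ : Type*) [Group Γ] {P : Type*} [TopologicalSpace P] [MulAction Γ P]
    (f : P → ℝ) extends SPush f where
  equi : ∀ γ : Γ, (∀ x, f (γ • x) = f x) → ∀ x t, Fl (γ • x) t = γ • Fl x t

/-- The normalised gradient flow pushes functions up strictly and equivariantly, given a Palais-Smale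
property and the absence of critical points. -/
theorem exists_epush [T2Space P] [SigmaCompactSpace P] {n : ℕ} {ι : Imm (E := E) P n}
    {Γ : Type*} [Group Γ] [MulAction Γ P] (𝒟 : Deck ι Γ) {f : P → ℝ}
    (hf : ContMDiff 𝓘(ℝ, E) 𝓘(ℝ, ℝ) ∞ f)
    (hps : ∀ c : ℝ, ∃ δ > (0:ℝ), ∀ x, |f x| ≤ c → δ ≤ ι.G f x)
    (hno : ∀ x, dForm 𝓘(ℝ, E) f x ≠ 0) : Nonempty (EPush Γ f) := by
  have : IsManifold 𝓘(ℝ, E) 1 P := IsManifold.of_le (n := ∞) (by simp)
  choose Fl h0 hFl using fun x => 𝒟.complete hf x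
  have hcont : Continuous fun p : P × ℝ => Fl p.1 p.2 :=
    (contMDiff_flow (ι.smooth_V hf) h0 hFl).continuous
  have hder : ∀ x t, HasDerivAt (fun s => f (Fl x s))
      (ι.G f (Fl x t) / (1 + ι.G f (Fl x t))) t := by
    intro x t
    have := hasDerivAt_along (W := ι.V f) (hFl x t) hf
    rwa [ι.dForm_V_self] at this
  have hpos : ∀ x, 0 < ι.G f x := by
    intro x
    rcases (ι.G_nonneg f x).lt_or_eq with h0 | h0
    · exact h0
    · exact absurd (ι.G_eq_zero h0.symm) (hno _)
  have hsm : ∀ x, StrictMono (fun t => f (Fl x t)) := by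
    intro x
    apply strictMono_of_deriv_pos
    intro t
    rw [(hder x t).deriv]
    have := hpos (Fl x t)
    positivity
  refine ⟨⟨⟨⟨Fl, h0, fun x s t => flow_add (ι.smooth_V hf) h0 hFl x s t, hcont,
    fun x => (hsm x).monotone, ?_⟩, hsm⟩, fun γ hγ x t => 𝒟.flow_smul hf h0 hFl γ hγ x t⟩⟩
  intro c
  obtain ⟨δ, hδ, h⟩ := hps c
  set T := (2 * |c| + 1) * (1 + δ) / δ with hT
  have hT0 : 0 < T := by positivity
  refine ⟨T, hT0.le, fun x hx => ?_⟩
  by_contra hlt
  push Not at hlt
  obtain ⟨s, hs, hs'⟩ := exists_hasDerivAt_eq_slope (fun t => f (Fl x t)) _ hT0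
    (fun t _ => (hder x t).continuousAt.continuousWithinAt) (fun t _ => hder x t)
  have h1 : f (Fl x 0) ≤ f (Fl x s) := (hsm x).monotone hs.1.le
  have h2 : f (Fl x s) ≤ f (Fl x T) := (hsm x).monotone hs.2.le
  rw [h0] at h1
  have h3 : |f (Fl x s)| ≤ c := abs_le.2 ⟨by linarith, by linarith⟩
  have hc : |c| = c := abs_of_nonneg ((abs_nonneg _).trans h3)
  have h4 := h _ h3
  have h5 : δ / (1 + δ) ≤ ι.G f (Fl x s) / (1 + ι.G f (Fl x s)) := by
    rw [div_le_div_iff₀ (by positivity) (by linarith)]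
    nlinarith
  rw [hs', sub_zero, h0, le_div_iff₀ hT0] at h5
  have h6 : δ / (1 + δ) * T = 2 * |c| + 1 := by
    rw [hT]; field_simp
  rw [h6, hc] at h5
  linarith

variable {β : (x : P) → TangentSpace 𝓘(ℝ, E) x →L[ℝ] ℝ} {m : ℕ} (A : TAct β m)
  {Γ : Type*} [Group Γ] [MulAction Γ P]

/-- Without closed Reeb orbits all integral momentum functions are pushed by flows. -/
theorem exists_epush_momentum [T2Space P] [SigmaCompactSpace P] {n : ℕ} {ι : Imm (E := E) P n}
    (hc : IsContact β) {R : (x : P) → TangentSpace 𝓘(ℝ, E) x}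
    (hR : IsReeb β R) (𝒟 : Deck ι Γ) (hN : A.Norm Γ)
    (hno : ∀ k : Fin m → ℤ, k ≠ 0 → ∀ x, dForm 𝓘(ℝ, E) (A.H (fun i => (k i : ℝ))) x ≠ 0)
    (k : Fin m → ℤ) (hk : k ≠ 0) : Nonempty (EPush Γ (A.H (fun i => (k i : ℝ)))) :=
  exists_epush 𝒟 (A.smooth_H hc.smooth (fun i => (k i : ℝ)))
    (A.palaisSmale hc hR 𝒟 hN hno k hk) (hno k hk)

end wein

namespace EPush

variable {Γ : Type*} [Group Γ] {P : Type*} [TopologicalSpace P] [MulAction Γ P] {f : P → ℝ}
  (F : EPush Γ f) (hf : Continuous f)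

lemma tau_smul (γ : Γ) (hγ : ∀ x, f (γ • x) = f x) (x : P) :
    F.tau hf (γ • x) = F.tau hf x := by
  apply F.tau_unique hf
  rw [F.equi γ hγ, hγ, F.tau_spec hf]

lemma homeo_smul (γ : Γ) (hγ : ∀ x, f (γ • x) = f x) (x : P) :
    ((F.homeo hf (γ • x)).1 : P) = γ • ((F.homeo hf x).1 : P) ∧
      (F.homeo hf (γ • x)).2 = (F.homeo hf x).2 := by
  refine ⟨?_, F.tau_smul hf γ hγ x⟩
  show F.Fl (γ • x) (-F.tau hf (γ • x)) = γ • F.Fl x (-F.tau hf x)
  rw [F.tau_smul hf γ hγ, F.equi γ hγ]

include F hf in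
/-- the equivariant product decomposition -/
theorem product : ∃ Φ : P ≃ₜ {x : P | f x = 0} × ℝ, (∀ y : {x : P | f x = 0}, Φ y = (y, 0)) ∧
    (∀ x, (0 < f x ↔ 0 < (Φ x).2) ∧ (f x < 0 ↔ (Φ x).2 < 0)) ∧
    ∀ γ : Γ, (∀ x, f (γ • x) = f x) → ∀ x,
      ((Φ (γ • x)).1 : P) = γ • ((Φ x).1 : P) ∧ (Φ (γ • x)).2 = (Φ x).2 := by
  refine ⟨F.homeo hf, F.homeo_zero hf, fun x => ?_, fun γ hγ x => F.homeo_smul hf γ hγ x⟩
  have h := F.homeo_sign hf x
  constructor
  · rw [← sign_eq_one_iff, ← sign_eq_one_iff, h]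
  · rw [← sign_eq_neg_one_iff, ← sign_eq_neg_one_iff, h]

end EPush

end Pool.Agent.W401P
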