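import Mathlib
import Pool.Agent.W401P.Prod
import Pool.Agent.W401P.Affine

/-! Contact forms with a local torus symmetry without closed Reeb orbits: the monodromy along a
crystallographic subgroup of the stabiliser of a circle. -/

open scoped Topology ContDiff Manifold Matrix
open Set Metric Bundle Pool.Agent.Helper186 Pool.Agent.H826R2.Wein

noncomputable section

namespace Pool.Agent.W401P

set_option linter.unusedSectionVars false

universe u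

variable {E : Type u} [NormedAddCommGroup E] [NormedSpace ℝ E] [FiniteDimensional ℝ E]
  {P : Type*} [TopologicalSpace P] [ChartedSpace E P] [IsManifold 𝓘(ℝ, E) ∞ P]
  {β : (x : P) → TangentSpace 𝓘(ℝ, E) x →L[ℝ] ℝ} {m : ℕ} (A : TAct β m)
  {Γ : Type*} [Group Γ] [MulAction Γ P]

/-- the momentum covector -/
def mu (x : P) : Fin m → ℝ := fun j => A.H (Pi.single j 1) x

lemma H_eq_mu (κ : Fin m → ℝ) (x : P) : A.H κ x = mu A x ⬝ᵥ κ := by
  rw [A.H_expand]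
  exact Finset.sum_congr rfl fun i _ => mul_comm _ _

lemma mu_act (θ : Fin m → ℝ) (x : P) : mu A (A.act θ x) = mu A x := by
  ext j
  exact A.H_act _ θ x

lemma continuous_mu (hc : IsContact β) : Continuous (mu A) :=
  continuous_pi fun _ => (A.smooth_H hc.smooth _).continuous

/-- **Ray bound.** -/
theorem ray_bound (hc : IsContact β) {n : ℕ} {ι : Imm (E := E) P n} (𝒟 : Deck ι Γ)
    (hN : A.Norm Γ) : ∃ C : ℝ, 0 ≤ C ∧ ∀ (x : P) (b : Fin m → ℤ) (t : ℝ), b ≠ 0 →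
      mu A x = t • (fun i => (b i : ℝ)) → |t| ≤ C := by
  obtain ⟨C, hC⟩ := 𝒟.compact.exists_bound_of_continuousOn (f := mu A)
    (continuous_mu A hc).continuousOn
  refine ⟨max C 0, le_max_right _ _, fun x b t hb hx => ?_⟩
  obtain ⟨γ, hγ⟩ := 𝒟.cover x
  obtain ⟨B, hB⟩ := A.H_equiv 𝒟 hN γ⁻¹
  obtain ⟨B', hB'⟩ := A.H_equiv 𝒟 hN γ
  have h1 : ∀ j, mu A (γ • x) j = t * ((∑ i, b i * B (Pi.single j 1) i : ℤ) : ℝ) := by
    intro j
    have h2 := hB (Pi.single j 1) (γ • x)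
    rw [inv_smul_smul, H_eq_mu, hx] at h2
    have h3 : (fun i => ((Pi.single j 1 : Fin m → ℤ) i : ℝ)) = Pi.single j 1 := by
      ext i
      by_cases h : i = j
      · subst h; simp
      · simp [h]
    rw [h3] at h2
    show A.H (Pi.single j 1) (γ • x) = _
    rw [← h2, smul_dotProduct, smul_eq_mul]
    congr 1
    unfold dotProduct
    push_cast
    rfl
  by_cases h : ∃ j, (∑ i, b i * B (Pi.single j 1) i : ℤ) ≠ 0
  · obtain ⟨j, hj⟩ := h
    have h2 : (1:ℝ) ≤ |((∑ i, b i * B (Pi.single j 1) i : ℤ) : ℝ)| := by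
      rw [← Int.cast_abs]
      exact_mod_cast Int.one_le_abs hj
    calc |t| = |t| * 1 := (mul_one _).symm
      _ ≤ |t| * |((∑ i, b i * B (Pi.single j 1) i : ℤ) : ℝ)| :=
          mul_le_mul_of_nonneg_left h2 (abs_nonneg _)
      _ = |mu A (γ • x) j| := by rw [h1 j, abs_mul]
      _ ≤ ‖mu A (γ • x)‖ := norm_le_pi_norm (mu A (γ • x)) j
      _ ≤ C := hC _ hγ
      _ ≤ _ := le_max_left _ _
  · push Not at h
    have h2 : mu A (γ • x) = 0 := by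
      ext j
      rw [h1 j, h j]
      simp
    have h3 := hB' b x
    rw [H_eq_mu, H_eq_mu, h2, zero_dotProduct, hx, smul_dotProduct, smul_eq_mul] at h3
    have h4 : (fun i => (b i : ℝ)) ⬝ᵥ (fun i => (b i : ℝ)) ≠ 0 := by
      intro h0
      apply hb
      have h5 := dotProduct_self_eq_zero.1 h0
      ext i
      have := congrFun h5 i
      simpa using this
    have h5 : t = 0 := by
      rcases mul_eq_zero.1 h3.symm with h | h
      · exact h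
      · exact absurd h h4
    rw [h5, abs_zero]
    exact le_max_right _ _

/-- equivariance of the momentum -/
lemma mu_smul {n : ℕ} {ι : Imm (E := E) P n} (𝒟 : Deck ι Γ) (hN : A.Norm Γ)
    (ρ : Γ →* GL (Fin m) ℤ)
    (hρ : ∀ (γ : Γ) (θ : Fin m → ℝ) (x : P), γ • A.act θ x = A.act (toR (ρ γ) *ᵥ θ) (γ • x))
    (γ : Γ) (x : P) : mu A (γ • x) = coact (ρ γ) (mu A x) := by
  have h1 : ∀ (γ : Γ) (κ : Fin m → ℝ) (x : P),
      A.H (toR (ρ γ) *ᵥ κ) (γ • x) = A.H κ x := by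
    intro γ κ x
    refine A.H_push (𝒟.smooth γ) (fun t y => ?_) (hN.strict γ) x
    show γ • A.act (t • κ) y = A.act (t • (toR (ρ γ) *ᵥ κ)) (γ • y)
    rw [hρ, Matrix.mulVec_smul]
  ext j
  have h2 := h1 γ⁻¹ (Pi.single j 1) (γ • x)
  rw [inv_smul_smul] at h2
  show A.H (Pi.single j 1) (γ • x) = _
  rw [← h2, H_eq_mu, coact_eq, map_inv, Matrix.dotProduct_mulVec]
  simp

/-- **Main theorem**, working form. -/
theorem cryst_false [T2Space P] [SigmaCompactSpace P] {n : ℕ} {ι : Imm (E := E) P n}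
    (hc : IsContact β) (𝒟 : Deck ι Γ) (hN : A.Norm Γ)
    (ρ : Γ →* GL (Fin m) ℤ)
    (hρ : ∀ (γ : Γ) (θ : Fin m → ℝ) (x : P), γ • A.act θ x = A.act (toR (ρ γ) *ᵥ θ) (γ • x))
    (k : Fin m → ℤ) (hk : k ≠ 0) (F : EPush Γ (A.H (fun i => (k i : ℝ))))
    (Δ : Subgroup (GL (Fin m) ℤ)) (hΔ : Crystallographic Δ k)
    (D : hyperplane k → P) (hD : Continuous D) {K₀ : Set P} (hK₀ : IsCompact K₀)
    {Q₀ : Set (Fin m → ℝ)} (hQ₀ : IsCompact Q₀)
    (hDΔ : ∀ b : hyperplane k, ∃ γ : Γ, ρ γ ∈ Δ ∧ coact (ρ γ) b ∈ Q₀ ∧ γ • D b ∈ K₀) :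
    False := by
  set Q : Set (Fin m → ℝ) := Q₀ ∩ hyperplane k with hQdef
  have hQ : IsCompact Q := hQ₀.inter_right isClosed_hyperplane
  have hQk : Q ⊆ hyperplane k := inter_subset_right
  obtain ⟨C, hC0, hC⟩ := ray_bound A hc 𝒟 hN
  set κ : Fin m → ℝ := fun j => (k j : ℝ) with hκ
  have hh : 0 < κ ⬝ᵥ κ := by
    have h0 : κ ≠ 0 := by
      intro h0
      apply hk
      ext i
      have := congrFun h0 i
      simpa [hκ] using this
    have h1 : 0 ≤ κ ⬝ᵥ κ := Finset.sum_nonneg fun i _ => mul_self_nonneg _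
    rcases h1.lt_or_eq with h | h
    · exact h
    · exact absurd (dotProduct_self_eq_zero.1 h.symm) h0
  have hfix : ∀ γ : Γ, ρ γ ∈ Δ → ((ρ γ : GL (Fin m) ℤ) : Matrix (Fin m) (Fin m) ℤ) *ᵥ k = k :=
    fun γ hγ => hΔ.fix _ hγ
  have hDΔ' : ∀ b : hyperplane k, ∃ γ : Γ, ρ γ ∈ Δ ∧ coact (ρ γ) b ∈ Q ∧ γ • D b ∈ K₀ := by
    intro b
    obtain ⟨γ, h1, h2, h3⟩ := hDΔ b
    exact ⟨γ, h1, ⟨h2, coact_mem (hfix γ h1) b.2⟩, h3⟩
  -- the momentum of the circle is invariant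
  have hHk : ∀ γ : Γ, ρ γ ∈ Δ → ∀ x, A.H κ (γ • x) = A.H κ x := by
    intro γ hγ x
    rw [H_eq_mu, H_eq_mu, mu_smul A 𝒟 hN ρ hρ, coact_eq, ← Matrix.dotProduct_mulVec, toR_mulVec,
      fix_inv (hfix γ hγ)]
  have hHc : Continuous (A.H κ) := (A.smooth_H hc.smooth κ).continuous
  obtain ⟨c₀, hc₀⟩ := hK₀.exists_bound_of_continuousOn hHc.continuousOn
  set c : ℝ := max c₀ (max 0 (C * (κ ⬝ᵥ κ))) with hcdef
  have hc1 : c₀ ≤ c := le_max_left _ _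
  have hc2 : 0 ≤ c := (le_max_left _ _).trans (le_max_right _ _)
  have hc3 : C * (κ ⬝ᵥ κ) ≤ c := (le_max_right _ _).trans (le_max_right _ _)
  obtain ⟨T, hT0, hT⟩ := F.push c
  have hK₀T : ∀ y ∈ K₀, c < A.H κ (F.Fl y T) := by
    intro y hy
    apply hT
    have h2 : |A.H κ y| ≤ c₀ := hc₀ y hy
    have := (abs_le.1 h2).1
    linarith
  have hlow : ∀ b : hyperplane k, c < A.H κ (F.Fl (D b) T) := by
    intro b
    obtain ⟨γ, hγ, -, hb⟩ := hDΔ' b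
    have h1 := hK₀T _ hb
    rw [F.equi γ (hHk γ hγ), hHk γ hγ] at h1
    exact h1
  have hpos : ∀ b : hyperplane k, 0 < A.H κ (F.Fl (D b) T) := fun b => hc2.trans_lt (hlow b)
  -- the normalised momentum
  let φ : hyperplane k → (Fin m → ℝ) := fun b =>
    (A.H κ (F.Fl (D b) T))⁻¹ • mu A (F.Fl (D b) T)
  have hD' : Continuous fun b => F.Fl (D b) T := (F.toFpush.cont_left T).comp hD
  have hφc : Continuous φ :=
    ((hHc.comp hD').inv₀ fun b => (hpos b).ne').smul ((continuous_mu A hc).comp hD')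
  have hφV : ∀ b, φ b ∈ hyperplane k := by
    intro b
    rw [mem_hyperplane]
    show ((A.H κ (F.Fl (D b) T))⁻¹ • mu A (F.Fl (D b) T)) ⬝ᵥ κ = 1
    rw [smul_dotProduct, ← H_eq_mu, smul_eq_mul, inv_mul_cancel₀ (hpos b).ne']
  -- the rational point
  set p : Fin m → ℝ := (κ ⬝ᵥ κ)⁻¹ • κ with hpdef
  have hp : p ∈ hyperplane k := by
    rw [mem_hyperplane]
    show ((κ ⬝ᵥ κ)⁻¹ • κ) ⬝ᵥ κ = 1
    rw [smul_dotProduct, smul_eq_mul, inv_mul_cancel₀ hh.ne']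
  -- the compact set of momenta
  let K : Set P := (fun y => F.Fl y T) '' K₀
  have hK : IsCompact K := hK₀.image (F.toFpush.cont_left T)
  have hKpos : ∀ w ∈ K, 0 < A.H κ w := by
    rintro _ ⟨y, hy, rfl⟩
    exact hc2.trans_lt (hK₀T y hy)
  let Q'' : Set (Fin m → ℝ) := (fun w => (A.H κ w)⁻¹ • mu A w) '' K
  have hQ'' : IsCompact Q'' := by
    refine hK.image_of_continuousOn ?_
    exact (hHc.continuousOn.inv₀ fun w hw => (hKpos w hw).ne').smul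
      (continuous_mu A hc).continuousOn
  have hkey : ∀ b : hyperplane k, ∃ γ : Γ, ρ γ ∈ Δ ∧ coact (ρ γ) b ∈ Q ∧
      coact (ρ γ) (φ b) ∈ Q'' := by
    intro b
    obtain ⟨γ, hγ, hb, hDb⟩ := hDΔ' b
    refine ⟨γ, hγ, hb, F.Fl (γ • D b) T, ⟨_, hDb, rfl⟩, ?_⟩
    show (A.H κ (F.Fl (γ • D b) T))⁻¹ • mu A (F.Fl (γ • D b) T) = _
    rw [F.equi γ (hHk γ hγ), hHk γ hγ, mu_smul A 𝒟 hN ρ hρ, ← coact_smul]
  -- the points moved to `p`
  let Q₁ : Set (Fin m → ℝ) :=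
    (fun y : ℝ × (Fin m → ℝ) × (Fin m → ℝ) => (1 - y.1) • y.2.1 + y.1 • y.2.2) ''
      (Icc (0:ℝ) 1 ×ˢ Q ×ˢ Q'')
  have hQ₁ : IsCompact Q₁ := by
    refine IsCompact.image (isCompact_Icc.prod (hQ.prod hQ'')) ?_
    fun_prop
  have hQ''k : Q'' ⊆ hyperplane k := by
    rintro _ ⟨w, hw, rfl⟩
    rw [mem_hyperplane]
    show ((A.H κ w)⁻¹ • mu A w) ⬝ᵥ κ = 1
    rw [smul_dotProduct, ← H_eq_mu, smul_eq_mul, inv_mul_cancel₀ (hKpos w hw).ne']
  have hQ₁k : Q₁ ⊆ hyperplane k := by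
    rintro _ ⟨⟨t, a, a'⟩, ⟨-, ha, ha'⟩, rfl⟩
    rw [mem_hyperplane]
    have h1 := mem_hyperplane.1 (hQk ha)
    have h2 := mem_hyperplane.1 (hQ''k ha')
    show ((1 - t) • a + t • a') ⬝ᵥ κ = 1
    rw [add_dotProduct, smul_dotProduct, smul_dotProduct]
    rw [show a ⬝ᵥ κ = 1 from h1, show a' ⬝ᵥ κ = 1 from h2]
    simp
  have hQ₂ : IsCompact (Q₁ ∪ {p}) := hQ₁.union isCompact_singleton
  have hQ₂k : Q₁ ∪ {p} ⊆ hyperplane k := union_subset hQ₁k (singleton_subset_iff.2 hp)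
  have hfin := hΔ.proper _ hQ₂ hQ₂k
  have hW : IsCompact (⋃ G ∈ {G : GL (Fin m) ℤ | G ∈ Δ ∧ ∃ b ∈ Q₁ ∪ {p},
      coact G b ∈ Q₁ ∪ {p}}, coact G⁻¹ '' Q) :=
    hfin.isCompact_biUnion fun G _ => hQ.image (continuous_coact G⁻¹)
  obtain ⟨R₀, hR₀⟩ := hW.exists_bound_of_continuousOn (f := fun b => b - p)
    (continuous_id.sub continuous_const).continuousOn
  obtain ⟨b, hb⟩ := exists_value hk φ hφc hφV hp R₀ (by
    intro b t ht0 ht1 hbt
    apply hR₀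
    obtain ⟨γ, hγ, h1, h2⟩ := hkey b
    refine mem_biUnion (x := ρ γ) ⟨hγ, p, Or.inr rfl, Or.inl ?_⟩
      ⟨_, h1, coact_inv_coact _ _⟩
    refine ⟨(t, coact (ρ γ) b, coact (ρ γ) (φ b)), ⟨⟨ht0, ht1⟩, h1, h2⟩, ?_⟩
    show (1 - t) • coact (ρ γ) b + t • coact (ρ γ) (φ b) = coact (ρ γ) p
    rw [← hbt, coact_add, coact_smul _ (1 - t) (b : Fin m → ℝ), coact_smul _ t (φ b)])
  -- the contradiction
  set u := A.H κ (F.Fl (D b) T) with hu
  have h1 : mu A (F.Fl (D b) T) = (u * (κ ⬝ᵥ κ)⁻¹) • κ := by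
    have h2 : u • φ b = mu A (F.Fl (D b) T) := by
      show u • (u⁻¹ • mu A (F.Fl (D b) T)) = _
      rw [smul_smul, mul_inv_cancel₀ (hpos b).ne', one_smul]
    rw [← h2, hb, hpdef, smul_smul]
  have h2 := hC _ k _ hk h1
  have h3 : c < u := hlow b
  have h4 : u * (κ ⬝ᵥ κ)⁻¹ ≤ C := (le_abs_self _).trans h2
  rw [← div_eq_mul_inv, div_le_iff₀ hh] at h4
  linarith

end Pool.Agent.W401P
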