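import Mathlib
import Pool.Agent.W401P.Prod

/-! The Palais-Smale property of the momentum of one circle, and the closed Reeb orbit given by a
critical point of this function. -/

open scoped Topology ContDiff Manifold
open Set Metric Bundle Pool.Agent.Helper186 Pool.Agent.H826R2.Wein

noncomputable section

namespace Pool.Agent.W401P

set_option linter.unusedSectionVars false

universe u

variable {E : Type u} [NormedAddCommGroup E] [NormedSpace ℝ E] [FiniteDimensional ℝ E]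
  {P : Type*} [TopologicalSpace P] [ChartedSpace E P] [IsManifold 𝓘(ℝ, E) ∞ P]
  {β : (x : P) → TangentSpace 𝓘(ℝ, E) x →L[ℝ] ℝ} {m : ℕ} (A : TAct β m)
  {Γ : Type*} [Group Γ] [MulAction Γ P]

/-- **Palais-Smale property** of the momentum of one circle, if this momentum has no critical
points. -/
lemma palaisSmale_one {n : ℕ} {ι : Imm (E := E) P n}
    (hc : IsContact β) {R : (x : P) → TangentSpace 𝓘(ℝ, E) x}
    (hR : IsReeb β R) (𝒟 : Deck ι Γ) (hN : A.Norm Γ) (k : Fin m → ℤ)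
    (hno : ∀ x, dForm 𝓘(ℝ, E) (A.H (fun i => (k i : ℝ))) x ≠ 0) (c : ℝ) :
    ∃ δ > (0:ℝ), ∀ x, |A.H (fun i => (k i : ℝ)) x| ≤ c →
      δ ≤ ι.G (A.H (fun i => (k i : ℝ))) x := by
  obtain ⟨μ, hμ, hQ⟩ := A.exists_Q_bound ι hc hR 𝒟.compact
  -- the finite set of relevant integer vectors
  set S : Set (Fin m → ℤ) := {k' | μ * ‖(fun i => (k' i : ℝ))‖ ^ 2 ≤ 1 + c ^ 2 ∧
    ∃ γ : Γ, ∀ x, A.H (fun i => (k' i : ℝ)) (γ • x) = A.H (fun i => (k i : ℝ)) x} with hS
  have hSfin : S.Finite := by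
    obtain ⟨N, hN'⟩ := exists_nat_ge (Real.sqrt ((1 + c ^ 2) / μ))
    refine (Set.finite_Icc (fun _ => -(N:ℤ)) (fun _ : Fin m => (N:ℤ))).subset ?_
    rintro k' ⟨h1, -⟩
    have h2 : ‖(fun i => (k' i : ℝ))‖ ≤ N := by
      refine le_trans ?_ hN'
      apply Real.le_sqrt_of_sq_le
      rw [le_div_iff₀ hμ]
      linarith
    have h3 : ∀ i, |(k' i : ℝ)| ≤ N := fun i => by
      have := norm_le_pi_norm (fun i => (k' i : ℝ)) i
      rw [Real.norm_eq_abs] at this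
      exact this.trans h2
    constructor
    · intro i
      have := (abs_le.1 (h3 i)).1
      exact_mod_cast this
    · intro i
      have := (abs_le.1 (h3 i)).2
      exact_mod_cast this
  have hSc : IsCompact ((fun (k' : Fin m → ℤ) => (fun i => (k' i : ℝ) : Fin m → ℝ)) '' S) :=
    (hSfin.image _).isCompact
  obtain ⟨δ, hδ, h⟩ : ∃ δ > (0:ℝ), ∀ p ∈ 𝒟.D ×ˢ
      ((fun (k' : Fin m → ℤ) => (fun i => (k' i : ℝ) : Fin m → ℝ)) '' S),
      δ ≤ ι.G (A.H p.2) p.1 := by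
    rcases (𝒟.D ×ˢ
      ((fun (k' : Fin m → ℤ) => (fun i => (k' i : ℝ) : Fin m → ℝ)) '' S)).eq_empty_or_nonempty
      with he | hne
    · exact ⟨1, one_pos, fun p hp => by rw [he] at hp; exact hp.elim⟩
    · obtain ⟨p, hp, hmin⟩ := (𝒟.compact.prod hSc).exists_isMinOn hne
        (A.continuous_G_H ι hc.smooth).continuousOn
      refine ⟨ι.G (A.H p.2) p.1, ?_, fun q hq => hmin hq⟩
      obtain ⟨y, κ⟩ := p
      obtain ⟨-, k', ⟨-, γ, hγ⟩, hk''⟩ := hp
      simp only at hk'' ⊢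
      rw [← hk'']
      have e2 : ι.G (A.H (fun i => (k' i : ℝ))) (γ • (γ⁻¹ • y)) =
          ι.G (A.H (fun i => (k i : ℝ))) (γ⁻¹ • y) :=
        𝒟.G_push γ (A.smooth_H hc.smooth _) hγ (γ⁻¹ • y)
      rw [smul_inv_smul] at e2
      rw [e2]
      rcases (ι.G_nonneg (A.H (fun i => (k i : ℝ))) (γ⁻¹ • y)).lt_or_eq with h0 | h0
      · exact h0
      · exact absurd (ι.G_eq_zero h0.symm) (hno _)
  refine ⟨min 1 δ, by positivity, fun x hx => ?_⟩
  by_contra hlt
  push Not at hlt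
  obtain ⟨γ, hγ⟩ := 𝒟.cover x
  obtain ⟨B, hB⟩ := A.H_equiv 𝒟 hN γ
  have e1 := hB k
  have e2 : ι.G (A.H (fun i => ((B k) i : ℝ))) (γ • x) = ι.G (A.H (fun i => (k i : ℝ))) x :=
    𝒟.G_push γ (A.smooth_H hc.smooth _) e1 x
  have e3 : A.Q ι (fun i => ((B k) i : ℝ)) (γ • x) = A.Q ι (fun i => (k i : ℝ)) x := by
    unfold TAct.Q
    rw [e1, e2]
  have hmem : B k ∈ S := by
    refine ⟨?_, γ, e1⟩
    refine (hQ _ hγ _).trans ?_
    rw [e3]
    unfold TAct.Q
    have h1 : ι.G (A.H (fun i => (k i : ℝ))) x ≤ 1 := (hlt.trans_le (min_le_left _ _)).le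
    have h2 : (A.H (fun i => (k i : ℝ)) x) ^ 2 ≤ c ^ 2 := by
      rw [← sq_abs]
      exact pow_le_pow_left₀ (abs_nonneg _) hx 2
    linarith
  have := h (γ • x, fun i => ((B k) i : ℝ)) ⟨hγ, mem_image_of_mem _ hmem⟩
  simp only at this
  rw [e2] at this
  exact absurd (hlt.trans_le (min_le_right _ _)) (not_lt.2 this)

/-- A pushing flow for the momentum of one circle without critical points. -/
theorem exists_epush_one [T2Space P] [SigmaCompactSpace P] {n : ℕ} {ι : Imm (E := E) P n}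
    (hc : IsContact β) {R : (x : P) → TangentSpace 𝓘(ℝ, E) x}
    (hR : IsReeb β R) (𝒟 : Deck ι Γ) (hN : A.Norm Γ) (k : Fin m → ℤ)
    (hno : ∀ x, dForm 𝓘(ℝ, E) (A.H (fun i => (k i : ℝ))) x ≠ 0) :
    Nonempty (EPush Γ (A.H (fun i => (k i : ℝ)))) :=
  exists_epush 𝒟 (A.smooth_H hc.smooth (fun i => (k i : ℝ)))
    (palaisSmale_one A hc hR 𝒟 hN k hno) hno

/-- The orbit of the circle through a critical point, parametrised as a Reeb orbit. -/
theorem reeb_curve_of_crit (hc : IsContact β) {R : (x : P) → TangentSpace 𝓘(ℝ, E) x}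
    (hR : IsReeb β R) {k : Fin m → ℤ} (hk : k ≠ 0) {x : P}
    (h : dForm 𝓘(ℝ, E) (A.H (fun i => (k i : ℝ))) x = 0) :
    ∃ a : ℝ, a ≠ 0 ∧ IsMIntegralCurve (I := 𝓘(ℝ, E))
        (fun t : ℝ => A.act (fun i => t / a * (k i : ℝ)) x) R ∧
      ∀ t : ℝ, A.act (fun i => (t + |a|) / a * (k i : ℝ)) x =
        A.act (fun i => t / a * (k i : ℝ)) x := by
  set κ : Fin m → ℝ := fun i => (k i : ℝ) with hκ
  have hκ0 : κ ≠ 0 := by
    intro h0
    apply hk
    ext i
    have := congrFun h0 i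
    simpa [hκ] using this
  have hH := A.H_ne_zero_of_crit hc hR hκ0 h
  set a := A.H κ x with ha
  have hper : ∀ (n : ℤ) (y : P), A.fam κ ((n:ℝ), y) = y := by
    intro n y
    have : (fun i => (((n * k i : ℤ)) : ℝ)) = (n:ℝ) • κ := by
      ext i; simp [hκ]
    simp only [TAct.fam]
    rw [← this]
    exact A.period (fun i => n * k i) y
  have hfam : ∀ t : ℝ, A.act (fun i => t / a * (k i : ℝ)) x = A.fam κ (t * a⁻¹, x) :=
    fun t => rfl
  refine ⟨a, hH, ?_, ?_⟩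
  · intro t
    have h1 : HasMFDerivAt 𝓘(ℝ, ℝ) 𝓘(ℝ, ℝ) (fun t : ℝ => t * a⁻¹) t
        (a⁻¹ • (1 : ℝ →L[ℝ] ℝ)) := by
      have : HasFDerivAt (fun t : ℝ => t * a⁻¹) (a⁻¹ • (1 : ℝ →L[ℝ] ℝ)) t :=
        (hasFDerivAt_id t).mul_const a⁻¹
      exact this.hasMFDerivAt
    have h2 := HasMFDerivAt.comp t (g := fun t : ℝ => A.fam κ (t, x))
      (f := fun t : ℝ => t * a⁻¹) (A.integral κ x (t * a⁻¹)) h1
    refine h2.congr_mfderiv ?_
    refine ContinuousLinearMap.ext fun (r : ℝ) => ?_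
    have h3 : A.X κ (A.fam κ (t * a⁻¹, x)) = a • R (A.fam κ (t * a⁻¹, x)) := by
      have h4 := A.X_eq_of_crit hc hR (A.crit_act hc.smooth h ((t * a⁻¹) • κ))
      rw [A.H_act] at h4
      exact h4
    show (a⁻¹ • r) • A.X κ (A.fam κ (t * a⁻¹, x)) = r • R (A.fam κ (t * a⁻¹, x))
    rw [h3, smul_smul]
    congr 1
    simp only [smul_eq_mul]
    field_simp
  · intro t
    rw [hfam, hfam]
    rcases lt_or_gt_of_ne hH with h0 | h0
    · have e : (t + |a|) * a⁻¹ = t * a⁻¹ + ((-1 : ℤ) : ℝ) := by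
        rw [abs_of_neg h0]
        push_cast
        field_simp
      rw [e, A.fam_add, hper]
    · have e : (t + |a|) * a⁻¹ = t * a⁻¹ + ((1 : ℤ) : ℝ) := by
        rw [abs_of_pos h0]
        push_cast
        field_simp
      rw [e, A.fam_add, hper]

variable {M : Type*} [TopologicalSpace M] [ChartedSpace E M] [IsManifold 𝓘(ℝ, E) ∞ M]
  {q : P → M}

/-- Projection of Reeb orbits. -/
lemma integral_proj (hq : RegCover (E := E) q Γ) {R : (x : M) → TangentSpace 𝓘(ℝ, E) x}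
    {c : ℝ → P} (hc : IsMIntegralCurve (I := 𝓘(ℝ, E)) c (liftField hq R)) :
    IsMIntegralCurve (I := 𝓘(ℝ, E)) (fun t => q (c t)) R := by
  intro t
  have h2 := HasMFDerivAt.comp t (g := q) (f := c) (hq.mdiff (c t)).hasMFDerivAt (hc t)
  refine h2.congr_mfderiv ?_
  refine ContinuousLinearMap.ext fun (r : ℝ) => ?_
  show mfderiv 𝓘(ℝ, E) 𝓘(ℝ, E) q (c t) (r • liftField hq R (c t)) = r • R (q (c t))
  rw [map_smul, hq.liftField_spec]

end Pool.Agent.W401P
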