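import Mathlib
import Pool.Agent.W401P.Cryst
import Pool.Agent.W401P.One
import Pool.Agent.W669.Cone.Stmt

/-! Closed Reeb orbits which are orbits of a given circle of a local torus symmetry with arbitrary
monodromy, if a crystallographic group which fixes the circle occurs in the monodromy along a
continuous family of points parametrised by an affine hyperplane. Definitions and elementary form. -/

open scoped Topology ContDiff Manifold Matrix
open Set

noncomputable section

namespace Pool.Agent.W401P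

open Pool.Agent.H826R2.WStmt

set_option linter.unusedSectionVars false

universe u

variable {E : Type u} [NormedAddCommGroup E] [NormedSpace ℝ E] [FiniteDimensional ℝ E]
  {M : Type*} [TopologicalSpace M] [ChartedSpace E M] [IsManifold 𝓘(ℝ, E) ∞ M]
  {P : Type*} [TopologicalSpace P] [ChartedSpace E P] [IsManifold 𝓘(ℝ, E) ∞ P]

/-- `ρ` is the monodromy representation of the torus action normalised by the group `Γ`:
`γ (θ x) = (ρ(γ) θ) (γ x)` for all `γ` in `Γ`, `θ` in `ℝ^m` and `x` in `P`. -/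
def IsMonodromy {P : Type*} {m : ℕ} (act : (Fin m → ℝ) → P → P) {Γ : Type*} [Group Γ]
    [MulAction Γ P] (ρ : Γ →* GL (Fin m) ℤ) : Prop :=
  ∀ (γ : Γ) (θ : Fin m → ℝ) (x : P),
    γ • act θ x = act (fun i => ∑ j, ((ρ γ : Matrix (Fin m) (Fin m) ℤ) i j : ℝ) * θ j) (γ • x)

/-- The map `D` of the affine hyperplane of the covectors `b` with `b k = 1` to `P` is coarsely
equivariant for the group `Δ` of integer matrices: there are compact sets `Q` of covectors and `K` in
`P` such that for every `b` in the hyperplane some `γ` in `Γ` with `ρ(γ)` in `Δ` moves `b` into `Q` and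
`D b` into `K`. -/
def CoarselyEquivariant {P : Type*} [TopologicalSpace P] {m : ℕ} {Γ : Type*} [Group Γ]
    [MulAction Γ P] (ρ : Γ →* GL (Fin m) ℤ) (Δ : Subgroup (GL (Fin m) ℤ)) {k : Fin m → ℤ}
    (D : hyperplane k → P) : Prop :=
  ∃ (K : Set P) (Q : Set (Fin m → ℝ)), IsCompact K ∧ IsCompact Q ∧
    ∀ b : hyperplane k, ∃ γ : Γ, ρ γ ∈ Δ ∧ coact (ρ γ) b ∈ Q ∧ γ • D b ∈ K

/-- **Crystallographic monodromy.** -/
theorem exists_periodic_cryst [T2Space M] [CompactSpace M]
    (α : M → Cov E) (hα : IsContact α) (R : M → E) (hR : IsReeb α R)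
    [T2Space P] [SigmaCompactSpace P]
    {Γ : Type*} [Group Γ] [MulAction Γ P] (q : P → M) (hq : IsQuotientMap E q Γ)
    {m : ℕ} (A : TorusAction (pull (E := E) q α) m)
    (ρ : Γ →* GL (Fin m) ℤ) (hρ : IsMonodromy A.act ρ)
    (k : Fin m → ℤ) (hk : k ≠ 0)
    (Δ : Subgroup (GL (Fin m) ℤ)) (hΔ : Crystallographic Δ k)
    (D : hyperplane k → P) (hD : Continuous D) (hDΔ : CoarselyEquivariant ρ Δ D) :
    ∃ (x : P) (a : ℝ), a ≠ 0 ∧
      IsPeriodicOrbit R (fun t => q (A.act (fun i => t / a * (k i : ℝ)) x)) |a| := by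
  obtain ⟨n, ι, ⟨𝒟⟩⟩ := hq.toWein.exists_deck
  have hN : A.toWein.Norm Γ :=
    ⟨hq.toWein.strict (toForm α), fun γ => ⟨(ρ γ : Matrix (Fin m) (Fin m) ℤ), hρ γ⟩⟩
  have hcP := hq.toWein.isContact_pull hα.toWein
  have hRP := hq.toWein.isReeb_lift hα.toWein hR.toWein
  obtain ⟨K, Q, hK, hQ, hKQ⟩ := hDΔ
  have hcrit : ∃ x, Pool.Agent.Helper186.dForm 𝓘(ℝ, E) (A.toWein.H (fun i => (k i : ℝ))) x = 0 := by
    by_contra hno
    push Not at hno
    obtain ⟨F⟩ := exists_epush_one A.toWein hcP hRP 𝒟 hN k hno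
    exact cryst_false A.toWein hcP 𝒟 hN ρ (fun γ θ x => hρ γ θ x) k hk F Δ hΔ D hD hK hQ hKQ
  obtain ⟨x, hx⟩ := hcrit
  obtain ⟨a, ha, h1, h2⟩ := reeb_curve_of_crit A.toWein hcP hRP hk hx
  refine ⟨x, a, ha, abs_pos.2 ha, integral_proj hq.toWein h1, fun t => congrArg q (h2 t)⟩

end Pool.Agent.W401P
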