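import Mathlib
import Pool.Agent.W401P.CrystStmt

/-! Examples for the hypotheses of the theorem on crystallographic monodromy: the group of all
integral shears along an integer vector is crystallographic, and equivariance up to the torus action
implies coarse equivariance. -/

open scoped Topology ContDiff Manifold Matrix
open Set

noncomputable section

namespace Pool.Agent.W401P

variable {m : ℕ}

lemma vecMulVec_sq {k l : Fin m → ℤ} (h : l ⬝ᵥ k = 0) :
    Matrix.vecMulVec k l * Matrix.vecMulVec k l = 0 := by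
  rw [Matrix.vecMulVec_mul_vecMulVec, h]
  simp

/-- The integral shear `θ ↦ θ + l(θ) k`, for an integral covector `l` with `l k = 0`. -/
def shear (k l : Fin m → ℤ) (h : l ⬝ᵥ k = 0) : GL (Fin m) ℤ where
  val := 1 + Matrix.vecMulVec k l
  inv := 1 - Matrix.vecMulVec k l
  val_inv := by
    rw [add_mul, mul_sub, mul_sub, vecMulVec_sq h]
    simp
  inv_val := by
    rw [sub_mul, mul_add, mul_add, vecMulVec_sq h]
    simp

/-- The group of all integral shears along `k`. -/
def shearGroup (k : Fin m → ℤ) : Subgroup (GL (Fin m) ℤ) where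
  carrier := {G | ∃ l : Fin m → ℤ, l ⬝ᵥ k = 0 ∧
    (G : Matrix (Fin m) (Fin m) ℤ) = 1 + Matrix.vecMulVec k l}
  mul_mem' := by
    rintro G G' ⟨l, hl, hG⟩ ⟨l', hl', hG'⟩
    refine ⟨l + l', by rw [add_dotProduct, hl, hl', add_zero], ?_⟩
    rw [Units.val_mul, hG, hG', add_mul, mul_add, mul_add, Matrix.vecMulVec_mul_vecMulVec, hl,
      Matrix.vecMulVec_add]
    simp [add_assoc, add_comm]
  one_mem' := ⟨0, by simp, by simp⟩
  inv_mem' := by
    rintro G ⟨l, hl, hG⟩
    have h1 : G = shear k l hl := Units.ext hG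
    refine ⟨-l, by rw [neg_dotProduct, hl, neg_zero], ?_⟩
    rw [h1]
    show (1 : Matrix (Fin m) (Fin m) ℤ) - Matrix.vecMulVec k l = _
    rw [Matrix.vecMulVec_neg, sub_eq_add_neg]

lemma coact_shear {k l : Fin m → ℤ} (h : l ⬝ᵥ k = 0) {b : Fin m → ℝ} (hb : b ∈ hyperplane k) :
    coact (shear k l h) b = b - fun i => (l i : ℝ) := by
  have hb' : ∑ i, b i * (k i : ℝ) = 1 := hb
  ext j
  show ∑ i, b i * (((1 : Matrix (Fin m) (Fin m) ℤ) - Matrix.vecMulVec k l) i j : ℤ) = b j - l j
  have h1 : ∀ i, b i * ((((1 : Matrix (Fin m) (Fin m) ℤ) - Matrix.vecMulVec k l) i j : ℤ) : ℝ) =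
      b i * (if i = j then 1 else 0) - (b i * k i) * l j := by
    intro i
    rw [Matrix.sub_apply, Matrix.vecMulVec_apply, Matrix.one_apply]
    push_cast
    split_ifs <;> ring
  simp only [h1]
  rw [Finset.sum_sub_distrib, ← Finset.sum_mul, hb']
  simp

/-- **Example.** The group of all integral shears along a nonzero integer vector is
crystallographic. -/
theorem crystallographic_shears {k : Fin m → ℤ} (hk : k ≠ 0) :
    Crystallographic (shearGroup k) k where
  fix := by
    rintro G ⟨l, hl, hG⟩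
    rw [hG, Matrix.add_mulVec, Matrix.one_mulVec, Matrix.vecMulVec_mulVec, hl]
    simp
  cocompact := by
    obtain ⟨i₀, hi₀⟩ : ∃ i, k i ≠ 0 := by
      by_contra h
      push Not at h
      exact hk (funext h)
    have hkR : (k i₀ : ℝ) ≠ 0 := by exact_mod_cast hi₀
    -- the fundamental domain
    set B : ℝ := |(k i₀ : ℝ)| with hB
    have hBpos : 0 < B := abs_pos.2 hkR
    set Q : Set (Fin m → ℝ) := Metric.closedBall 0 (1 + B * (1 + ∑ j, |(k j : ℝ)|)) ∩
      hyperplane k with hQ
    refine ⟨Q, (isCompact_closedBall _ _).inter_right isClosed_hyperplane, inter_subset_right,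
      fun b hb => ?_⟩
    -- the shear
    let n : Fin m → ℤ := fun j => if j = i₀ then 0 else ⌊b j / (k i₀ : ℝ)⌋
    let l : Fin m → ℤ := fun j => if j = i₀ then - ∑ i, n i * k i else n j * k i₀
    have hn0 : n i₀ = 0 := by simp [n]
    have hl : l ⬝ᵥ k = 0 := by
      have h1 : ∀ j, l j * k j = n j * k j * k i₀ +
          (if j = i₀ then - (∑ i, n i * k i) * k i₀ else 0) := by
        intro j
        by_cases h : j = i₀
        · subst h
          simp [l, hn0]
        · simp only [l, h, if_false]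
          ring
      show ∑ j, l j * k j = 0
      simp only [h1]
      rw [Finset.sum_add_distrib, ← Finset.sum_mul, Finset.sum_ite_eq' Finset.univ i₀]
      simp
    refine ⟨shear k l hl, ⟨l, hl, rfl⟩, ?_⟩
    have hmem : coact (shear k l hl) b ∈ hyperplane k := by
      refine coact_mem ?_ hb
      show ((1 : Matrix (Fin m) (Fin m) ℤ) + Matrix.vecMulVec k l) *ᵥ k = k
      rw [Matrix.add_mulVec, Matrix.one_mulVec, Matrix.vecMulVec_mulVec, hl]
      simp
    refine ⟨?_, hmem⟩
    rw [coact_shear hl hb] at hmem ⊢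
    set b' : Fin m → ℝ := b - fun i => (l i : ℝ) with hb'
    have h1 : ∀ j, j ≠ i₀ → |b' j| ≤ B := by
      intro j hj
      have h2 : b' j = Int.fract (b j / (k i₀ : ℝ)) * k i₀ := by
        rw [hb', Pi.sub_apply]
        simp only [l, n, hj, if_false]
        push_cast
        rw [Int.fract, sub_mul, div_mul_cancel₀ _ hkR]
      rw [h2, abs_mul, abs_of_nonneg (Int.fract_nonneg _)]
      exact mul_le_of_le_one_left (abs_nonneg _) (Int.fract_lt_one _).le
    have h2 : |b' i₀| ≤ 1 + B * ∑ j, |(k j : ℝ)| := by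
      have h3 : ∑ j, b' j * (k j : ℝ) = 1 := hmem
      rw [← Finset.add_sum_erase _ _ (Finset.mem_univ i₀)] at h3
      have h4 : b' i₀ * k i₀ = 1 - ∑ j ∈ Finset.univ.erase i₀, b' j * (k j : ℝ) := by linarith
      have h5 : |b' i₀ * k i₀| ≤ 1 + B * ∑ j, |(k j : ℝ)| := by
        rw [h4]
        refine (abs_sub _ _).trans ?_
        rw [abs_one]
        refine add_le_add_right ((Finset.abs_sum_le_sum_abs _ _).trans ?_) _
        rw [Finset.mul_sum]
        refine (Finset.sum_le_sum (g := fun j => B * |(k j : ℝ)|) fun j hj => ?_).trans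
          (Finset.sum_le_sum_of_subset_of_nonneg (Finset.erase_subset _ _) fun j _ _ => by
            positivity)
        rw [abs_mul]
        exact mul_le_mul_of_nonneg_right (h1 j (Finset.ne_of_mem_erase hj)) (abs_nonneg _)
      refine le_trans ?_ h5
      rw [abs_mul]
      refine le_mul_of_one_le_right (abs_nonneg _) ?_
      rw [← Int.cast_abs]
      exact_mod_cast Int.one_le_abs hi₀
    rw [mem_closedBall_zero_iff]
    refine (pi_norm_le_iff_of_nonneg (by positivity)).2 fun j => ?_
    rw [Real.norm_eq_abs]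
    by_cases h : j = i₀
    · subst h
      refine h2.trans ?_
      nlinarith
    · refine (h1 j h).trans ?_
      have h3 : 0 ≤ ∑ j, |(k j : ℝ)| := Finset.sum_nonneg fun _ _ => abs_nonneg _
      nlinarith
  proper := by
    intro Q hQ hQk
    obtain ⟨r, hr⟩ := hQ.exists_bound_of_continuousOn (f := fun b => b) continuousOn_id
    obtain ⟨N, hN⟩ := exists_nat_ge (2 * r)
    refine Set.Finite.subset ((Set.finite_Icc (fun _ : Fin m => -(N:ℤ)) (fun _ => (N:ℤ))).image
      fun l : Fin m → ℤ => if h : l ⬝ᵥ k = 0 then shear k l h else 1) ?_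
    rintro G ⟨⟨l, hl, hG⟩, b, hb, hGb⟩
    have h1 : G = shear k l hl := Units.ext hG
    rw [h1, coact_shear hl (hQk hb)] at hGb
    have h2 : ∀ i, |(l i : ℝ)| ≤ N := by
      intro i
      have h3 : (l i : ℝ) = b i - (b - fun i => (l i : ℝ)) i := by simp
      rw [h3]
      have h4 := (norm_le_pi_norm b i).trans (hr _ hb)
      have h5 := (norm_le_pi_norm (b - fun i => (l i : ℝ)) i).trans (hr _ hGb)
      rw [Real.norm_eq_abs] at h4 h5
      exact (abs_sub _ _).trans (by linarith)
    refine ⟨l, ⟨fun i => ?_, fun i => ?_⟩, by simp only [hl, dite_true]; exact h1.symm⟩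
    · have := (abs_le.1 (h2 i)).1
      exact_mod_cast this
    · have := (abs_le.1 (h2 i)).2
      exact_mod_cast this

section

open Pool.Agent.H826R2.WStmt

universe u

variable {E : Type u} [NormedAddCommGroup E] [NormedSpace ℝ E]
  {P : Type*} [TopologicalSpace P] [ChartedSpace E P] [IsManifold 𝓘(ℝ, E) ∞ P]

/-- **Example.** If a subgroup `S` of the deck group acts crystallographically on the hyperplane and
the continuous map `D` is `S`-equivariant up to the torus action, then `D` is coarsely equivariant. -/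
theorem coarse_of_equivariant {β : P → Cov E} (A : TorusAction β m) {Γ : Type*} [Group Γ]
    [MulAction Γ P] (ρ : Γ →* GL (Fin m) ℤ) (S : Subgroup Γ) {k : Fin m → ℤ}
    (hS : Crystallographic (S.map ρ) k) (D : hyperplane k → P) (hD : Continuous D)
    (hDS : ∀ γ ∈ S, ∀ b b' : hyperplane k, (b' : Fin m → ℝ) = coact (ρ γ) b →
      ∃ θ : Fin m → ℝ, D b' = A.act θ (γ • D b)) : CoarselyEquivariant ρ (S.map ρ) D := by
  obtain ⟨Q, hQ, hQk, hcov⟩ := hS.cocompact
  let Q' : Set (hyperplane k) := Subtype.val ⁻¹' Q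
  have hQ' : IsCompact Q' := by
    rw [Subtype.isCompact_iff]
    have : Subtype.val '' Q' = Q := by
      ext b
      constructor
      · rintro ⟨b, hb, rfl⟩; exact hb
      · intro hb; exact ⟨⟨b, hQk hb⟩, hb, rfl⟩
    rw [this]
    exact hQ
  let K : Set P := (fun y : (Fin m → ℝ) × hyperplane k => A.act y.1 (D y.2)) ''
    ((Set.pi univ fun _ : Fin m => Icc (0:ℝ) 1) ×ˢ Q')
  have hact : Continuous fun y : (Fin m → ℝ) × P => A.act y.1 y.2 :=
    ContMDiff.continuous A.smooth
  have hK : IsCompact K := by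
    refine IsCompact.image ((isCompact_univ_pi fun _ => isCompact_Icc).prod hQ') ?_
    exact hact.comp (continuous_fst.prodMk (hD.comp continuous_snd))
  refine ⟨K, Q, hK, hQ, fun b => ?_⟩
  obtain ⟨G, ⟨γ, hγ, rfl⟩, hGb⟩ := hcov b b.2
  refine ⟨γ, Subgroup.mem_map_of_mem ρ hγ, hGb, ?_⟩
  obtain ⟨θ, hθ⟩ := hDS γ hγ b ⟨_, hQk hGb⟩ rfl
  have h1 : γ • D b = A.act (-θ) (D ⟨_, hQk hGb⟩) := by
    rw [hθ, ← A.add, neg_add_cancel, A.zero]
  refine ⟨(fun i => Int.fract ((-θ) i), ⟨_, hQk hGb⟩), ⟨fun i _ =>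
    ⟨Int.fract_nonneg _, (Int.fract_lt_one _).le⟩, hGb⟩, ?_⟩
  have h2 : -θ = (fun i => Int.fract ((-θ) i)) + fun i => ((⌊(-θ) i⌋ : ℤ) : ℝ) := by
    ext i
    exact (Int.fract_add_floor _).symm
  rw [h1]
  conv_rhs => rw [h2]
  rw [A.add, A.period]

end

end Pool.Agent.W401P
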