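import Mathlib
import Pool.Agent.W401P.Prod
import Pool.Agent.W669.Cone.Stmt

/-! Definitions and elementary form: closed Reeb orbits for contact forms with a local torus
symmetry of any rank and any monodromy, for which the covering is not the product of a noncompact
tangency hypersurface with a line. -/

open scoped Topology ContDiff Manifold
open Set

noncomputable section

namespace Pool.Agent.W401P

open Pool.Agent.H826R2.WStmt Pool.Agent.W669.ConeStmt

set_option linter.unusedSectionVars false

universe u

variable {E : Type u} [NormedAddCommGroup E] [NormedSpace ℝ E] [FiniteDimensional ℝ E]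
  {M : Type*} [TopologicalSpace M] [ChartedSpace E M] [IsManifold 𝓘(ℝ, E) ∞ M]
  {P : Type*} [TopologicalSpace P] [ChartedSpace E P] [IsManifold 𝓘(ℝ, E) ∞ P]

/-- The momentum function of the circle with integer direction `k` of a torus acting on `P` and
preserving the one-form `β`: the function `x ↦ β (X_k)`, where `X_k` is the generator. -/
def circleMomentum {β : P → Cov E} {m : ℕ} (A : TorusAction β m) (k : Fin m → ℤ) (x : P) : ℝ :=
  momentum A x (fun i => (k i : ℝ))

/-- The tangency hypersurface of the circle with integer direction `k`: the set of points at which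
the circle is tangent to the kernel of the one-form `β`. -/
def tangency {β : P → Cov E} {m : ℕ} (A : TorusAction β m) (k : Fin m → ℤ) : Set P :=
  {x | circleMomentum A k x = 0}

/-- The element `γ` of the group commutes with the circle with integer direction `k`. -/
def CommutesWith {P : Type*} {m : ℕ} (act : (Fin m → ℝ) → P → P) (k : Fin m → ℤ)
    {Γ : Type*} [Group Γ] [MulAction Γ P] (γ : Γ) : Prop :=
  ∀ (t : ℝ) (x : P), γ • act (fun i => t * (k i : ℝ)) x = act (fun i => t * (k i : ℝ)) (γ • x)

/-- `P` is equivariantly the product of the tangency hypersurface of the circle with direction `k` and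
a line: there is a homeomorphism of `P` onto `tangency A k × ℝ` which is `y ↦ (y, 0)` on the tangency
hypersurface, such that the points of `P` where the momentum of the circle is positive (negative)
correspond to the points with positive (negative) real coordinate, and which is equivariant for all
elements of `Γ` commuting with the circle (they act on the first factor only). -/
def IsProduct (Γ : Type*) [Group Γ] [MulAction Γ P] {β : P → Cov E} {m : ℕ}
    (A : TorusAction β m) (k : Fin m → ℤ) : Prop :=
  ∃ Φ : P ≃ₜ tangency A k × ℝ, (∀ y : tangency A k, Φ y = (y, 0)) ∧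
    (∀ x, (0 < circleMomentum A k x ↔ 0 < (Φ x).2) ∧ (circleMomentum A k x < 0 ↔ (Φ x).2 < 0)) ∧
    ∀ γ : Γ, CommutesWith A.act k γ → ∀ x,
      ((Φ (γ • x)).1 : P) = γ • ((Φ x).1 : P) ∧ (Φ (γ • x)).2 = (Φ x).2

/-- **Product theorem.** -/
theorem exists_periodic_product [T2Space M] [CompactSpace M]
    (α : M → Cov E) (hα : IsContact α) (R : M → E) (hR : IsReeb α R)
    [T2Space P] [SigmaCompactSpace P] [ConnectedSpace P]
    {Γ : Type*} [Group Γ] [MulAction Γ P] (q : P → M) (hq : IsQuotientMap E q Γ)
    {m : ℕ} (A : TorusAction (pull (E := E) q α) m) (hA : Normalises Γ A.act)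
    (k : Fin m → ℤ) (hk : k ≠ 0)
    (hp : ¬ IsProduct Γ A k ∨ IsCompact (tangency A k)) :
    ∃ (c : ℝ → M) (T : ℝ), IsPeriodicOrbit R c T := by
  by_contra hno
  have hm : 0 < m := by
    rcases Nat.eq_zero_or_pos m with h | h
    · subst h
      exact absurd (Subsingleton.elim k 0) hk
    · exact h
  obtain ⟨n, ι, ⟨𝒟⟩⟩ := hq.toWein.exists_deck
  have hN : A.toWein.Norm Γ := ⟨hq.toWein.strict (toForm α), hA⟩
  have hcP := hq.toWein.isContact_pull hα.toWein
  have hRP := hq.toWein.isReeb_lift hα.toWein hR.toWein
  have hcrit : ∀ k : Fin m → ℤ, k ≠ 0 → ∀ x,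
      Pool.Agent.Helper186.dForm 𝓘(ℝ, E) (A.toWein.H (fun i => (k i : ℝ))) x ≠ 0 := by
    intro l hl x hx
    apply hno
    obtain ⟨c, T, h1, h2, h3⟩ := hq.toWein.closed_proj (A.toWein.closed_of_crit hcP hRP hl hx)
    exact ⟨c, T, h1, h2, h3⟩
  obtain ⟨F⟩ := exists_epush_momentum A.toWein hcP hRP 𝒟 hN hcrit k hk
  have hcont : Continuous (A.toWein.H (fun i => (k i : ℝ))) :=
    (A.toWein.smooth_H hcP.smooth _).continuous
  have hprod : IsProduct Γ A k := by
    obtain ⟨Φ, h1, h2, h3⟩ := F.product hcont
    refine ⟨Φ, h1, h2, fun γ hγ x => h3 γ (fun y => ?_) x⟩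
    refine A.toWein.H_push (𝒟.smooth γ) (fun t z => ?_) (hN.strict γ) y
    exact hγ t z
  rcases hp with hp | hp
  · exact hp hprod
  · apply hno
    refine exists_periodic α hα R hR q hq hm A hA (Or.inr ⟨tangency A k,
      {x | 0 < circleMomentum A k x}, {x | circleMomentum A k x < 0}, hp,
      isOpen_lt continuous_const hcont, isOpen_lt hcont continuous_const, ?_, ?_, ?_, ?_⟩)
    · rw [Set.disjoint_left]
      intro x h1 h2
      have h1' : 0 < circleMomentum A k x := h1
      have h2' : circleMomentum A k x < 0 := h2
      exact lt_asymm h1' h2'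
    · ext x
      constructor
      · rintro (h | h) h'
        · have h1' : 0 < circleMomentum A k x := h
          have h2' : circleMomentum A k x = 0 := h'
          exact h1'.ne' h2'
        · have h1' : circleMomentum A k x < 0 := h
          have h2' : circleMomentum A k x = 0 := h'
          exact h1'.ne h2'
      · intro h
        have h' : circleMomentum A k x ≠ 0 := h
        rcases lt_or_gt_of_ne h' with h | h
        · exact Or.inr h
        · exact Or.inl h
    · intro K hK hsub
      obtain ⟨b, hb⟩ := (hK.image hcont).bddAbove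
      obtain ⟨x, hx⟩ := F.unbounded_above (max b 0)
      have h1 : x ∈ K := hsub ((le_max_right _ _).trans_lt hx)
      have h2 := hb ⟨x, h1, rfl⟩
      exact absurd ((le_max_left _ _).trans_lt hx) (not_lt.2 h2)
    · intro K hK hsub
      obtain ⟨b, hb⟩ := (hK.image hcont).bddBelow
      obtain ⟨x, hx⟩ := F.unbounded_below (min b 0)
      have h1 : x ∈ K := hsub (hx.trans_le (min_le_right _ _))
      have h2 := hb ⟨x, h1, rfl⟩
      exact absurd (hx.trans_le (min_le_left _ _)) (not_lt.2 h2)

end Pool.Agent.W401P
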